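import Pool.Agent.Lib.MP_ccfeb5_co.Main

set_option autoImplicit false

open Finset

namespace Pool.Agent.Results.MP_ccfeb5_co.LinialDual

/-- The largest number of vertices covered by at most k pairwise vertex-disjoint directed paths;
a directed path is a nonempty list of distinct vertices with an arc between consecutive ones. -/
noncomputable def lam {V : Type} [Fintype V] [DecidableEq V] (D : Digraph V) (k : ℕ) : ℕ :=
  sSup {n | ∃ P : Finset (List V), P.card ≤ k ∧
    (∀ p ∈ P, p ≠ [] ∧ p.Nodup ∧ p.IsChain D.Adj) ∧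
    (∀ p ∈ P, ∀ q ∈ P, p ≠ q → p.Disjoint q) ∧ n = (P.biUnion List.toFinset).card}

/-- The least value of the sum of min(|C|, k) over the classes C of a partition of the vertex set
into stable sets. -/
noncomputable def chi {V : Type} [Fintype V] [DecidableEq V] (D : Digraph V) (k : ℕ) : ℕ :=
  sInf {n | ∃ C : Finpartition (univ : Finset V),
    (∀ S ∈ C.parts, ∀ u ∈ S, ∀ v ∈ S, ¬ D.Adj u v) ∧ n = ∑ S ∈ C.parts, min S.card k}

theorem result (V : Type) [Fintype V] [DecidableEq V] (D : Digraph V) (hD : ∀ v, ¬ D.Adj v v)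
    (k : ℕ) (hk : 0 < k) : chi D k ≤ lam D k := by
  obtain ⟨p, c, hp1, hp2, hc, hsum⟩ := Pool.Agent.Lib.MP_ccfeb5_co.linial_dual V D.Adj hD k hk
  let cl : ℕ → Finset V := fun x => univ.filter fun v => c v = x
  let C : Finpartition (univ : Finset V) := Finpartition.ofExistsUnique ((univ.image c).image cl)
    (fun _ _ => subset_univ _)
    (fun v _ => ⟨cl (c v), ⟨mem_image_of_mem _ (mem_image_of_mem _ (mem_univ v)), by simp [cl]⟩, by
      rintro S ⟨h1, h2⟩
      obtain ⟨x, _, rfl⟩ := mem_image.1 h1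
      rw [(mem_filter.1 h2).2]⟩)
    (fun h => by
      obtain ⟨x, hx, h2⟩ := mem_image.1 h
      obtain ⟨v, _, rfl⟩ := mem_image.1 hx
      have : v ∈ cl (c v) := by simp [cl]
      rw [h2] at this
      exact notMem_empty _ this)
  have h1 : chi D k ≤ ∑ S ∈ C.parts, min S.card k := by
    refine Nat.sInf_le ⟨C, fun S hS u hu v hv huv => ?_, rfl⟩
    obtain ⟨x, _, rfl⟩ := mem_image.1 hS
    exact hc u v huv ((mem_filter.1 hu).2.trans (mem_filter.1 hv).2.symm)
  have h2 : ∑ S ∈ C.parts, min S.card k ≤ ∑ x ∈ univ.image c, min (cl x).card k :=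
    Finset.sum_image_le_of_nonneg fun _ _ => Nat.zero_le _
  refine h1.trans (h2.trans (hsum.trans (le_csSup ⟨Fintype.card V, ?_⟩
    ⟨(univ.image p).erase [], ?_, fun q hq => ?_, fun q hq r hr hqr => ?_, ?_⟩)))
  · rintro n ⟨P, _, _, _, rfl⟩
    exact card_le_univ _
  · exact (card_erase_le.trans card_image_le).trans (by simp)
  · obtain ⟨i, _, rfl⟩ := mem_image.1 (mem_of_mem_erase hq)
    refine ⟨ne_of_mem_erase hq, (hp1 i).1, List.isChain_iff_getElem.2 fun n hn => ?_⟩
    exact (hp1 i).2 n _ _ (List.getElem?_eq_getElem _) (List.getElem?_eq_getElem _)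
  · obtain ⟨i, _, rfl⟩ := mem_image.1 (mem_of_mem_erase hq)
    obtain ⟨j, _, rfl⟩ := mem_image.1 (mem_of_mem_erase hr)
    exact hp2 i j fun e => hqr (e ▸ rfl)
  · congr 1
    ext v
    simp only [mem_biUnion, mem_univ, true_and, List.mem_toFinset, mem_erase, mem_image]
    constructor
    · rintro ⟨i, hi⟩
      exact ⟨p i, ⟨List.ne_nil_of_mem hi, i, rfl⟩, hi⟩
    · rintro ⟨_, ⟨_, i, rfl⟩, hi⟩
      exact ⟨i, hi⟩

end Pool.Agent.Results.MP_ccfeb5_co.LinialDual
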